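import Pool.Agent.Helper771.FreeNilp

/-!
# The varieties of nilpotent associative algebras are logically perfect and logically regular

The homogeneity of the free nilpotent algebras of finite rank is the starting result of
helper771 (module `Pool.Agent.Helper771.FreeNilp`).
-/

set_option autoImplicit false

namespace Pool.Agent.Results.MP_00fd70_lc.PerfectAndRegular

open FirstOrder
open Pool.Agent.Helper771.FreeNilp (AlgFn algLang algStructure)

universe u

/-- The product `a * (b₁ * (b₂ * ...))` of a nonempty list of elements (the bracketing is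
irrelevant in an associative algebra). -/
def lprod {H : Type u} [Mul H] : H → List H → H
  | a, [] => a
  | a, b :: l => a * lprod b l

/-- `H` belongs to the variety `Θ_n(P)`: an associative, not necessarily unital `P`-algebra
(the multiplication is bilinear over `P`) in which every product of `n` elements is zero. -/
structure InTheta (P : Type u) [Field P] (n : ℕ) (H : Type u) [NonUnitalRing H] [Module P H] :
    Prop where
  tower : IsScalarTower P H H
  comm : SMulCommClass P H H
  nil : ∀ (a : H) (l : List H), l.length + 1 = n → lprod a l = 0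

/-- `W` with the free generators `x : X → W` is the free algebra `W(X)` of `Θ_n(P)`. -/
def IsFreeOn (P : Type u) [Field P] (n : ℕ) (X : Type) (W : Type u) [NonUnitalRing W]
    [Module P W] (x : X → W) : Prop :=
  InTheta P n W ∧ ∀ (B : Type u) [NonUnitalRing B] [Module P B], InTheta P n B →
    ∀ y : X → B, ∃! f : W →ₙₐ[P] B, ∀ i, f (x i) = y i

/-- The type of a tuple: all first-order formulas without parameters in the language
`0, +, -, *, (λ · )` (`λ ∈ P`) which it satisfies. -/
def tp (P : Type u) [Field P] {H : Type u} [NonUnitalRing H] [Module P H] {k : ℕ}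
    (a : Fin k → H) : Set ((algLang P).Formula (Fin k)) :=
  {φ | φ.Realize a}

/-- The set `S_k(H)` of the types of `k`-tuples realised in `H`. -/
def types (P : Type u) [Field P] (H : Type u) [NonUnitalRing H] [Module P H] (k : ℕ) :
    Set (Set ((algLang P).Formula (Fin k))) :=
  Set.range (tp P : (Fin k → H) → _)

/-- `H₁` and `H₂` are isotypic. -/
def Isotypic (P : Type u) [Field P] (H₁ H₂ : Type u) [NonUnitalRing H₁] [Module P H₁]
    [NonUnitalRing H₂] [Module P H₂] : Prop :=
  ∀ k : ℕ, 1 ≤ k → types P H₁ k = types P H₂ k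

/-- `H` is logically separable in `Θ_n(P)`. -/
def LogicallySeparable (P : Type u) [Field P] (n : ℕ) (H : Type u) [NonUnitalRing H]
    [Module P H] : Prop :=
  ∀ (H' : Type u) [NonUnitalRing H'] [Module P H'], InTheta P n H' → Isotypic P H' H →
    ∃ f : H →ₙₐ[P] H', Function.Bijective f

/-- `H` is logically homogeneous. -/
def LogicallyHomogeneous (P : Type u) [Field P] (H : Type u) [NonUnitalRing H] [Module P H] :
    Prop :=
  ∀ (k : ℕ) (a b : Fin k → H),
    tp P a = tp P b ↔ ∃ σ : H →ₙₐ[P] H, Function.Bijective σ ∧ ∀ i, σ (a i) = b i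

/-- `Θ_n(P)` is logically perfect. -/
def LogicallyPerfect (P : Type u) [Field P] (n : ℕ) : Prop :=
  ∀ (X : Type) [Finite X] (W : Type u) [NonUnitalRing W] [Module P W] (x : X → W),
    IsFreeOn P n X W x → LogicallyHomogeneous P W

/-- `Θ_n(P)` is logically regular. -/
def LogicallyRegular (P : Type u) [Field P] (n : ℕ) : Prop :=
  ∀ (X : Type) [Finite X] (W : Type u) [NonUnitalRing W] [Module P W] (x : X → W),
    IsFreeOn P n X W x → LogicallySeparable P n W

/-! ### Comparison with the powers of an algebra -/

open Pool.Agent.Helper771.FreeNilp (algPow spanMul IsNilp algPow_one algPow_succ spanMul_le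
  mul_mem_spanMul IsFreeNilp exists_isFreeNilp map_realize)

section

variable {P : Type u} [Field P] {H : Type u} [NonUnitalRing H] [Module P H]

theorem lprod_mem [IsScalarTower P H H] [SMulCommClass P H H] :
    ∀ (l : List H) (a : H), lprod a l ∈ algPow P H (l.length + 1)
  | [], a => by
    change a ∈ algPow P H 1
    rw [algPow_one]; trivial
  | b :: l, a => by
    change a * lprod b l ∈ algPow P H (l.length + 1 + 1)
    rw [algPow_succ (by omega)]
    exact mul_mem_spanMul trivial (lprod_mem l b)

theorem algPow_eq_span [IsScalarTower P H H] [SMulCommClass P H H] (k : ℕ) :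
    algPow P H (k + 1) =
      Submodule.span P {z | ∃ (a : H) (l : List H), l.length = k ∧ z = lprod a l} := by
  apply le_antisymm
  · induction k with
    | zero =>
      intro a _
      exact Submodule.subset_span ⟨a, [], rfl, rfl⟩
    | succ k ih =>
      rw [algPow_succ (by omega)]
      refine spanMul_le ?_
      intro a _ b hb
      have h1 := ih hb
      have key : Submodule.span P {z | ∃ (a : H) (l : List H), l.length = k ∧ z = lprod a l} ≤
          (Submodule.span P {z | ∃ (a : H) (l : List H), l.length = k + 1 ∧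
            z = lprod a l}).comap (LinearMap.mulLeft P a) := by
        rw [Submodule.span_le]
        rintro z ⟨c, l, hl, rfl⟩
        refine Submodule.subset_span ⟨a, c :: l, by simp [hl], rfl⟩
      exact key h1
  · rw [Submodule.span_le]
    rintro z ⟨a, l, rfl, rfl⟩
    exact lprod_mem l a

theorem isNilp_iff [IsScalarTower P H H] [SMulCommClass P H H] {n : ℕ} (hn : 1 ≤ n) :
    IsNilp P H n ↔ ∀ (a : H) (l : List H), l.length + 1 = n → lprod a l = 0 := by
  obtain ⟨k, rfl⟩ : ∃ k, n = k + 1 := ⟨n - 1, by omega⟩
  unfold IsNilp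
  rw [algPow_eq_span, Submodule.span_eq_bot]
  constructor
  · intro h a l hl
    exact h _ ⟨a, l, by omega, rfl⟩
  · rintro h z ⟨a, l, hl, rfl⟩
    exact h a l (by omega)

theorem inTheta_iff {n : ℕ} (hn : 1 ≤ n) :
    InTheta P n H ↔ ∃ (_ : IsScalarTower P H H) (_ : SMulCommClass P H H), IsNilp P H n := by
  constructor
  · intro h
    have i1 := h.tower
    have i2 := h.comm
    exact ⟨i1, i2, (isNilp_iff hn).2 h.nil⟩
  · rintro ⟨i1, i2, h⟩
    exact ⟨i1, i2, (isNilp_iff hn).1 h⟩

end

theorem isFreeNilp_of {P : Type u} [Field P] {n : ℕ} (hn : 1 ≤ n) {X : Type} {r : ℕ}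
    (e : Fin r ≃ X) {W : Type u} [NonUnitalRing W] [Module P W] {x : X → W}
    (h : IsFreeOn P n X W x) : IsFreeNilp P n r W (x ∘ e) := by
  obtain ⟨h1, h2⟩ := h
  obtain ⟨_, _, h3⟩ := (inTheta_iff hn).1 h1
  refine ⟨h3, ?_⟩
  intro B _ _ i1 i2 hB y
  obtain ⟨f, hf, hu⟩ := h2 B ((inTheta_iff hn).2 ⟨i1, i2, hB⟩) (y ∘ e.symm)
  refine ⟨f, ?_, ?_⟩
  · intro i
    have := hf (e i)
    simpa using this
  · intro g hg
    apply hu
    intro i
    have := hg (e.symm i)
    simpa using this

/-- The free algebras exist (so that the definitions are not vacuous). -/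
theorem exists_free (P : Type u) [Field P] (n r : ℕ) (hn : 1 ≤ n) :
    ∃ (W : Type u) (_ : NonUnitalRing W) (_ : Module P W) (x : Fin r → W),
      IsFreeOn P n (Fin r) W x := by
  obtain ⟨F, i1, i2, i3, i4, x, hF⟩ := exists_isFreeNilp P n r hn
  refine ⟨F, i1, i2, x, (inTheta_iff hn).2 ⟨i3, i4, hF.1⟩, ?_⟩
  intro B _ _ hB y
  obtain ⟨j1, j2, hB'⟩ := (inTheta_iff hn).1 hB
  exact hF.2 B hB' y

/-! ### Automorphisms preserve types -/

section

variable {P : Type u} [Field P] {H : Type u} [NonUnitalRing H] [Module P H]

/-- A bijective homomorphism as an isomorphism of structures. -/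
noncomputable def toEquiv (σ : H →ₙₐ[P] H) (hσ : Function.Bijective σ) :
    H ≃[algLang P] H where
  toEquiv := Equiv.ofBijective σ hσ
  map_fun' := by
    intro n f xs
    match n, f with
    | _, AlgFn.zero => exact map_zero σ
    | _, AlgFn.add => exact map_add σ (xs 0) (xs 1)
    | _, AlgFn.neg => exact map_neg σ (xs 0)
    | _, AlgFn.mul => exact map_mul σ (xs 0) (xs 1)
    | _, AlgFn.smul c => exact map_smul σ c (xs 0)
  map_rel' := by
    intro n r
    exact r.elim

theorem tp_eq_of_auto {k : ℕ} {a b : Fin k → H} (σ : H →ₙₐ[P] H) (hσ : Function.Bijective σ)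
    (h : ∀ i, σ (a i) = b i) : tp P a = tp P b := by
  ext φ
  have h1 := Language.StrongHomClass.realize_formula (toEquiv σ hσ) φ (v := a)
  have h2 : ((toEquiv σ hσ : H → H) ∘ a) = b := by
    funext i
    exact h i
  rw [h2] at h1
  exact h1.symm

end

theorem perfect (P : Type u) [Field P] (n : ℕ) (hn : 1 ≤ n) : LogicallyPerfect P n := by
  intro X _ W _ _ x hx
  obtain ⟨r, ⟨e⟩⟩ := Finite.exists_equiv_fin X
  have hF := isFreeNilp_of hn e.symm hx
  obtain ⟨_, _, _⟩ := (inTheta_iff hn).1 hx.1
  intro k a b
  constructor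
  · intro h
    obtain rfl | hk := Nat.eq_zero_or_pos k
    · exact ⟨NonUnitalAlgHom.id P W, Function.bijective_id, fun i => i.elim0⟩
    · refine hF.homogeneous hn k hk a b ?_
      intro φ
      exact Set.ext_iff.1 h φ
  · rintro ⟨σ, hσ, h⟩
    exact tp_eq_of_auto σ hσ h

/-! ### Separability -/

section

variable {P : Type u} [Field P] {H H' : Type u} [NonUnitalRing H] [Module P H]
  [NonUnitalRing H'] [Module P H']

/-- homomorphisms commute with terms -/
theorem map_term (σ : H →ₙₐ[P] H') {α : Type} (v : α → H) (t : (algLang P).Term α) :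
    σ (t.realize v) = t.realize (fun a => σ (v a)) := by
  induction t with
  | var a => rfl
  | @func l f ts ih =>
    match l, f with
    | _, AlgFn.zero => exact map_zero σ
    | _, AlgFn.add =>
      change σ ((ts 0).realize v + (ts 1).realize v) = _
      rw [map_add, ih 0, ih 1]; rfl
    | _, AlgFn.neg =>
      change σ (- (ts 0).realize v) = _
      rw [map_neg, ih 0]; rfl
    | _, AlgFn.mul =>
      change σ ((ts 0).realize v * (ts 1).realize v) = _
      rw [map_mul, ih 0, ih 1]; rfl
    | _, AlgFn.smul c =>
      change σ (c • (ts 0).realize v) = _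
      rw [map_smul, ih 0]; rfl

/-- the tuple `(a, h)` -/
def sn {H : Type u} {r : ℕ} (a : Fin r → H) (h : H) : Fin (r + 1) → H :=
  Fin.snoc (α := fun _ => H) a h

theorem sn_castSucc {H : Type u} {r : ℕ} (a : Fin r → H) (h : H) (i : Fin r) :
    sn a h (Fin.castSucc i) = a i := by
  simp [sn]

theorem sn_last {H : Type u} {r : ℕ} (a : Fin r → H) (h : H) : sn a h (Fin.last r) = h := by
  simp [sn]

theorem sn_eta {H : Type u} {r : ℕ} (z : Fin (r + 1) → H) :
    sn (fun i => z (Fin.castSucc i)) (z (Fin.last r)) = z := by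
  funext i
  refine Fin.lastCases ?_ (fun j => ?_) i
  · rw [sn_last]
  · rw [sn_castSucc]

theorem mem_tp_relabel {r : ℕ} (a : Fin r → H) (h : H) (φ : (algLang P).Formula (Fin r)) :
    (Language.Formula.relabel Fin.castSucc φ : (algLang P).Formula (Fin (r + 1))) ∈
      tp P (sn a h) ↔ φ ∈ tp P a := by
  change Language.Formula.Realize _ _ ↔ _
  rw [Language.Formula.realize_relabel]
  have : (sn a h) ∘ Fin.castSucc = a := by
    funext i
    exact sn_castSucc a h i
  rw [this]
  rfl

theorem tp_restrict {r : ℕ} {a : Fin r → H} {h : H} {a' : Fin r → H'} {h' : H'}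
    (e : tp P (sn a h) = tp P (sn a' h')) : tp P a = tp P a' := by
  ext φ
  rw [← mem_tp_relabel a h, ← mem_tp_relabel a' h', e]

end

theorem separable (P : Type u) [Field P] (n : ℕ) (hn : 1 ≤ n) : LogicallyRegular P n := by
  intro X _ W _ _ x hx
  obtain ⟨r, ⟨e⟩⟩ := Finite.exists_equiv_fin X
  have hF := isFreeNilp_of hn e.symm hx
  have hhom := perfect P n hn X W x hx
  obtain ⟨_, _, _⟩ := (inTheta_iff hn).1 hx.1
  intro H' _ _ hH' hiso
  set x' : Fin r → W := x ∘ e.symm with hx'
  -- a tuple of `H'` of the type of the generators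
  obtain ⟨yc, hyc⟩ : tp P (sn x' 0) ∈ types P H' (r + 1) := by
    rw [hiso (r + 1) (by omega)]
    exact ⟨_, rfl⟩
  set y : Fin r → H' := fun i => yc (Fin.castSucc i) with hy
  have hty : tp P y = tp P x' := by
    rw [← sn_eta yc] at hyc
    exact tp_restrict hyc
  -- every element of `H'` is a value of a term at this tuple
  have hgen : ∀ h : H', ∃ t : (algLang P).Term (Fin r), h = t.realize y := by
    intro h
    obtain ⟨z, hz⟩ : tp P (sn y h) ∈ types P W (r + 1) := by
      rw [← hiso (r + 1) (by omega)]
      exact ⟨_, rfl⟩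
    rw [← sn_eta z] at hz
    have h1 : tp P (fun i => z (Fin.castSucc i)) = tp P x' := (tp_restrict hz).trans hty
    obtain ⟨σ, hσ, hσx⟩ := (hhom r _ _).1 h1
    have h2 : tp P (sn (fun i => z (Fin.castSucc i)) (z (Fin.last r))) =
        tp P (sn x' (σ (z (Fin.last r)))) := by
      refine tp_eq_of_auto σ hσ ?_
      intro i
      refine Fin.lastCases ?_ (fun j => ?_) i
      · rw [sn_last, sn_last]
      · rw [sn_castSucc, sn_castSucc]
        exact hσx j
    obtain ⟨t, ht⟩ := hF.exists_term (σ (z (Fin.last r)))
    have h3 : (Language.Term.equal (Language.Term.var (Fin.last r) :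
        (algLang P).Term (Fin (r + 1))) (t.relabel Fin.castSucc)) ∈
        tp P (sn x' (σ (z (Fin.last r)))) := by
      change Language.Formula.Realize _ _
      rw [Language.Formula.realize_equal, Language.Term.realize_relabel]
      have : (sn x' (σ (z (Fin.last r)))) ∘ Fin.castSucc = x' := by
        funext i
        exact sn_castSucc _ _ i
      rw [this]
      change sn x' (σ (z (Fin.last r))) (Fin.last r) = _
      rw [sn_last]
      exact ht.symm
    rw [← h2, hz] at h3
    change Language.Formula.Realize _ _ at h3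
    rw [Language.Formula.realize_equal, Language.Term.realize_relabel] at h3
    have h4 : (sn y h) ∘ Fin.castSucc = y := by
      funext i
      exact sn_castSucc _ _ i
    rw [h4] at h3
    refine ⟨t, ?_⟩
    rw [← h3]
    exact (sn_last y h).symm
  -- the isomorphism
  obtain ⟨f, hf, _⟩ := hx.2 H' hH' (y ∘ e)
  have hfx : ∀ i, f (x' i) = y i := by
    intro i
    have := hf (e.symm i)
    simpa [hx'] using this
  have hft : ∀ t : (algLang P).Term (Fin r), f (t.realize x') = t.realize y := by
    intro t
    rw [map_term]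
    congr 1
    funext i
    exact hfx i
  refine ⟨f, ?_, ?_⟩
  · rw [injective_iff_map_eq_zero]
    intro w hw
    obtain ⟨t, ht⟩ := hF.exists_term w
    have h1 : t.realize y = 0 := by
      rw [← hft, hx', ht]
      exact hw
    have h2 : (Language.Term.equal t
        (Language.Term.func (AlgFn.zero : AlgFn P 0) Fin.elim0)) ∈ tp P y := by
      change Language.Formula.Realize _ _
      rw [Language.Formula.realize_equal]
      exact h1
    rw [hty] at h2
    change Language.Formula.Realize _ _ at h2
    rw [Language.Formula.realize_equal] at h2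
    rw [← ht]
    exact h2
  · intro h
    obtain ⟨t, ht⟩ := hgen h
    exact ⟨t.realize x', by rw [hft, ht]⟩

/-- Full answer to Q1: for every field `P` and every `n ≥ 2` (even `n ≥ 1`), the variety
`Θ_n(P)` is logically perfect and logically regular. -/
theorem result (P : Type u) [Field P] (n : ℕ) (hn : 1 ≤ n) :
    LogicallyPerfect P n ∧ LogicallyRegular P n :=
  ⟨perfect P n hn, separable P n hn⟩

end Pool.Agent.Results.MP_00fd70_lc.PerfectAndRegular
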